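import Pool.Agent.MP_d5eec5_gt.H77.KBot

/-! Cancelling two equal adjacent letters of the cutting word. -/

set_option autoImplicit false

namespace Pool.Agent.MP_d5eec5_gt.H77

open Pool.Agent.MP_d5eec5_gt.H48 Kind

/-- Raise the numbers from `k` on by two. -/
def wm2_f (k t : ℕ) : ℕ := if t < k then t else t + 2

theorem wm2_core (h2 : StmtN2) (h3 : StmtN3) (k n : ℕ) (p q P Q : List ℕ) (E E' : List Gen)
    (hn : p.length + q.length = n) (hN : P.length + Q.length = n + 2)
    (hb : Dbl ((p.map (wm2_f k) ++ k :: (k + 1) :: q.map (wm2_f k)).map fun x => (x + 1) / 2))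
    (ht : Dbl ((P.map (wm2_f k) ++ k :: (k + 1) :: Q.map (wm2_f k)).map fun x => x / 2))
    (hE' : cnt n E' = n + 2) (hE : cnt (n + 2) E = n + 2 + 2)
    (hcup : FE n ((p.length, cup) :: E) (E' ++ [(P.length, cup)]))
    (hcap : FE (n + 2) (E ++ [(P.length, cap)]) ((p.length, cap) :: E')) :
    FE 0 (bot ((p.map (wm2_f k) ++ k :: (k + 1) :: q.map (wm2_f k)).map fun x => (x + 1) / 2) ++
        E ++ top ((P.map (wm2_f k) ++ k :: (k + 1) :: Q.map (wm2_f k)).map fun x => x / 2))
      (bot ((p ++ q).map fun x => (x + 1) / 2) ++ E' ++ top ((P ++ Q).map fun x => x / 2)) := by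
  simp only [List.map_append, List.map_cons, List.map_map] at hb ht
  rw [List.map_append (l₁ := p.map (wm2_f k)), List.map_append (l₁ := P.map (wm2_f k))]
  simp only [List.map_cons, List.map_map]
  set p' := p.map ((fun x => (x + 1) / 2) ∘ wm2_f k) with hp'
  set q' := q.map ((fun x => (x + 1) / 2) ∘ wm2_f k) with hq'
  set P' := P.map ((fun x => x / 2) ∘ wm2_f k) with hP'
  set Q' := Q.map ((fun x => x / 2) ∘ wm2_f k) with hQ'
  have lp : p'.length = p.length := List.length_map _
  have lq : q'.length = q.length := List.length_map _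
  have lP : P'.length = P.length := List.length_map _
  have lQ : Q'.length = Q.length := List.length_map _
  have epq : p' ++ q' = (p ++ q).map ((fun x => (x + 1) / 2) ∘ wm2_f k) := List.map_append.symm
  have ePQ : P' ++ Q' = (P ++ Q).map ((fun x => x / 2) ∘ wm2_f k) := List.map_append.symm
  obtain ⟨j, hj | hj⟩ := Nat.even_or_odd' k
  · have e1 : (k + 1) / 2 = j := by omega
    have e2 : (k + 1 + 1) / 2 = j + 1 := by omega
    have e3 : k / 2 = j := by omega
    rw [e1, e2] at hb
    rw [e1, e3] at ht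
    rw [e1, e2, e3]
    obtain ⟨ht1, ht2⟩ := dbl_cup.mp ht
    have t1 := top_step ht (h2 P' Q' j ht1 ht2)
    have t2 : top (P' ++ Q') = top ((P ++ Q).map fun x => x / 2) := by
      rw [ePQ]
      apply top_congr
      intro a _ b _
      simp only [Function.comp, wm2_f]
      split_ifs <;> omega
    have b1 := h3 p' q' j (j + 1) hb (by omega)
    have b2 : bot ((p' ++ q').map (ren (j + 1) j)) =
        bot ((p ++ q).map fun x => (x + 1) / 2) := by
      rw [epq, List.map_map]
      apply bot_congr
      intro a _ b _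
      simp only [Function.comp, wm2_f, ren]
      split_ifs <;> omega
    rw [t2, lP] at t1
    rw [b2, lp] at b1
    have c1 : cnt 0 (bot (p' ++ j :: (j + 1) :: q')) = n + 2 := by
      rw [bot_cnt hb]; simp only [List.length_append, List.length_cons]; omega
    have c2 : cnt 0 (bot (p' ++ j :: (j + 1) :: q') ++ E) = (P' ++ j :: j :: Q').length := by
      rw [cnt_append, c1, hE]; simp only [List.length_append, List.length_cons]; omega
    refine (FE.left _ (c2 ▸ t1.symm)).trans ?_
    have s1 := FE.ctx (n := 0) (bot (p' ++ j :: (j + 1) :: q'))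
      (top ((P ++ Q).map fun x => x / 2)) (c1 ▸ hcap)
    have s2 := FE.right (E' ++ top ((P ++ Q).map fun x => x / 2)) b1
    simp only [List.append_assoc, List.cons_append, List.nil_append] at s1 s2 ⊢
    exact s1.trans s2
  · have e1 : (k + 1) / 2 = j + 1 := by omega
    have e2 : (k + 1 + 1) / 2 = j + 1 := by omega
    have e3 : k / 2 = j := by omega
    rw [e1, e2] at hb
    rw [e1, e3] at ht
    rw [e1, e2, e3]
    obtain ⟨hb1, hb2⟩ := dbl_cup.mp hb
    have b1 := h2 p' q' (j + 1) hb1 hb2
    have b2 : bot (p' ++ q') = bot ((p ++ q).map fun x => (x + 1) / 2) := by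
      rw [epq]
      apply bot_congr
      intro a _ b _
      simp only [Function.comp, wm2_f]
      split_ifs <;> omega
    have t1 := top_step (ht.cap (by omega)) (h3 P' Q' j (j + 1) ht (by omega))
    have t2 : top ((P' ++ Q').map (ren (j + 1) j)) = top ((P ++ Q).map fun x => x / 2) := by
      rw [ePQ, List.map_map]
      apply top_congr
      intro a _ b _
      simp only [Function.comp, wm2_f, ren]
      split_ifs <;> omega
    have c1 : cnt 0 (bot ((p ++ q).map fun x => (x + 1) / 2)) = n := by
      rw [← b2, bot_cnt hb1, List.length_append]; omega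
    have c2 : cnt 0 (bot ((p ++ q).map fun x => (x + 1) / 2) ++ E') =
        ((P' ++ Q').map (ren (j + 1) j)).length := by
      rw [cnt_append, c1, hE', List.length_map, List.length_append]; omega
    rw [t2, lP] at t1
    rw [b2, lp] at b1
    refine FE.trans ?_ (FE.left _ (c2 ▸ t1))
    have s1 := FE.ctx (n := 0) (bot ((p ++ q).map fun x => (x + 1) / 2))
      (top (P' ++ j :: (j + 1) :: Q')) (c1 ▸ hcup)
    have s2 := FE.right (E ++ top (P' ++ j :: (j + 1) :: Q')) b1.symm
    simp only [List.append_assoc, List.cons_append, List.nil_append] at s1 s2 ⊢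
    exact s2.trans s1

/-- The letter of a point. -/
def wm2_let (L : Line) (t : ℕ) : Fin 3 := if t ∈ L.a then 0 else if t ∈ L.b then 1 else 2

theorem wm2_word (L : Line) : wordOf L = (List.range' 1 L.m).map (wm2_let L) := by
  rw [wordOf, List.range'_eq_map_range, List.map_map]
  apply List.map_congr_left
  intro i _
  simp only [Function.comp, wm2_let, add_comm 1 i]

theorem wm2_range (i r : ℕ) : List.range' 1 (i + r + 2) =
    (List.range' 1 i).map (wm2_f (i + 1)) ++ (i + 1) :: (i + 1 + 1) ::
      (List.range' (1 + i) r).map (wm2_f (i + 1)) := by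
  have h1 : (List.range' 1 i).map (wm2_f (i + 1)) = List.range' 1 i := by
    conv_rhs => rw [← List.map_id (List.range' 1 i)]
    apply List.map_congr_left
    intro t ht
    rw [List.mem_range'_1] at ht
    simp only [wm2_f, id]
    rw [if_pos (by omega)]
  have h2 : (List.range' (1 + i) r).map (wm2_f (i + 1)) = List.range' (1 + i + 1 + 1) r := by
    rw [List.range'_eq_map_range, List.range'_eq_map_range, List.map_map]
    apply List.map_congr_left
    intro t _
    simp only [Function.comp, wm2_f]
    rw [if_neg (by omega)]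
    omega
  rw [h1, h2, show i + r + 2 = i + (r + 1 + 1) by ring, ← List.range'_append_1,
    List.range'_succ, List.range'_succ, add_comm 1 i]

theorem wm2_mem (k t : ℕ) (l : List ℕ) : wm2_f k t ∈ l.map (wm2_f k) ↔ t ∈ l := by
  apply List.mem_map_of_injective
  intro a b
  simp only [wm2_f]
  split_ifs <;> omega

theorem wm2_ne (k t : ℕ) : wm2_f k t ≠ k ∧ wm2_f k t ≠ k + 1 := by
  simp only [wm2_f]
  split_ifs <;> omega

theorem wm2_nmem (k : ℕ) (l : List ℕ) : k ∉ l.map (wm2_f k) ∧ k + 1 ∉ l.map (wm2_f k) := by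
  constructor <;> intro h <;> obtain ⟨t, _, ht⟩ := List.mem_map.mp h
  · exact (wm2_ne k t).1 ht
  · exact (wm2_ne k t).2 ht

theorem wm2_lab {L L' : Line} {a b : Wd} {x : Fin 3} {p q : List ℕ} (h : Lab L')
    (hw : wordOf L' = a ++ b) (e' : L'.all = p ++ q)
    (e : L.all = p.map (wm2_f (a.length + 1)) ++ (a.length + 1) :: (a.length + 1 + 1) ::
      q.map (wm2_f (a.length + 1)))
    (hl : ∀ t, wm2_let L (wm2_f (a.length + 1) t) = wm2_let L' t)
    (h1 : wm2_let L (a.length + 1) = x) (h2 : wm2_let L (a.length + 1 + 1) = x) :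
    L.m = L'.m + 2 ∧ Lab L ∧ wordOf L = a ++ x :: x :: b := by
  have hm' : L'.m = a.length + b.length := by rw [← wordOf_length, hw, List.length_append]
  have hm : L.m = L'.m + 2 := by
    simp only [Line.m, e, e', List.length_append, List.length_cons, List.length_map]; omega
  have hs : List.range' 1 L'.m =
      List.range' 1 a.length ++ List.range' (1 + a.length) b.length := by
    rw [hm', List.range'_append_1]
  refine ⟨hm, ⟨?_, ?_⟩, ?_⟩
  · rw [hm]; exact h.1.add even_two
  · rw [e, hm, hm', wm2_range]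
    refine (perm_mid2 _ _ _ _).trans (List.Perm.trans ?_ (perm_mid2 _ _ _ _).symm)
    rw [← List.map_append, ← List.map_append, ← e', ← hs]
    exact ((h.2.map _).cons _).cons _
  · rw [wm2_word, hs, List.map_append] at hw
    obtain ⟨ha, hb⟩ := List.append_inj hw (by simp)
    have hf : wm2_let L ∘ wm2_f (a.length + 1) = wm2_let L' := funext hl
    rw [wm2_word, hm, hm', wm2_range]
    simp only [List.map_append, List.map_cons, List.map_map, hf, h1, h2, ha, hb]

theorem wm2_e0 {n s a a' b : ℕ} {κ : Kind} (h : s + win κ ≤ a) (hn : a + b ≤ n)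
    (e : a' + win κ = a + wout κ) : FE n ((s, κ) :: ends a' b) (ends a b ++ [(s, κ)]) :=
  calc FE n [(s, κ), (a', up false), (a' + 1 + b, up true)]
        [(a, up false), (s, κ), (a' + 1 + b, up true)] :=
        FE.right [(a' + 1 + b, up true)] (l := [(s, κ), (a', up false)])
          (r := [(a, up false), (s, κ)]) (fe_far' h (by simp [win]; omega) e).symm
    FE n _ [(a, up false), (a + 1 + b, up true), (s, κ)] :=
        FE.cons _ (fe_far' (by omega) (by simp [win, wout]; omega) (by omega)).symm

theorem wm2_e1 {n s a b b' : ℕ} {κ : Kind} (h : a ≤ s) (h' : s + win κ ≤ a + b) (hn : a + b ≤ n)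
    (e : b' + win κ = b + wout κ) : FE n ((s, κ) :: ends a b') (ends a b ++ [(s + 1, κ)]) :=
  calc FE n [(s, κ), (a, up false), (a + 1 + b', up true)]
        [(a, up false), (s + 1, κ), (a + 1 + b', up true)] :=
        FE.right [(a + 1 + b', up true)] (l := [(s, κ), (a, up false)])
          (r := [(a, up false), (s + 1, κ)])
          (fe_far' (by simpa [win] using h) (by omega) (by simp [win, wout]))
    FE n _ [(a, up false), (a + 1 + b, up true), (s + 1, κ)] :=
        FE.cons _ (fe_far' (by omega) (by simp [win, wout]; omega) (by omega)).symm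

theorem wm2_e2 {n s a b : ℕ} {κ : Kind} (h : a + b ≤ s) (hn : s + win κ ≤ n) :
    FE n ((s, κ) :: ends a b) (ends a b ++ [(s + 1 + 1, κ)]) :=
  calc FE n [(s, κ), (a, up false), (a + 1 + b, up true)]
        [(a, up false), (s + 1, κ), (a + 1 + b, up true)] :=
        FE.right [(a + 1 + b, up true)] (l := [(s, κ), (a, up false)])
          (r := [(a, up false), (s + 1, κ)])
          (fe_far' (by simp [win]; omega) hn (by simp [win, wout]))
    FE n _ [(a, up false), (a + 1 + b, up true), (s + 1 + 1, κ)] :=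
        FE.cons _ (fe_far' (by simp [win]; omega)
          (show s + 1 + win κ ≤ n - 0 + 1 by omega) (by simp [win, wout]))

theorem wm2_of : StmtN1 → StmtN2 → StmtN3 → StmtWM1 → StmtWM2 := by
  intro _ h2 h3 w1 L L' a x b hL hL' hw hw'
  have hm' : L'.m = a.length + b.length := by rw [← wordOf_length, hw', List.length_append]
  have hme := L'.m_eq
  set k := a.length + 1 with hk
  have f0 : wm2_f k 0 = 0 := by simp [wm2_f, hk]
  have fm : wm2_f k (L'.m + 1) = L'.m + 2 + 1 := by
    simp only [wm2_f]; rw [if_neg (by omega)]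
  obtain ⟨A, B, C⟩ := L'
  simp only at hme
  have hx : x = 0 ∨ x = 1 ∨ x = 2 := by omega
  rcases hx with rfl | rfl | rfl
  · obtain ⟨m1, l1, l2⟩ := wm2_lab
      (L := ⟨k :: (k + 1) :: A.map (wm2_f k), B.map (wm2_f k), C.map (wm2_f k)⟩)
      (x := 0) (p := []) (q := A ++ B ++ C) hL' hw' rfl (by simp [Line.all, hk])
      (fun t => by simp [wm2_let, wm2_mem, wm2_ne, ← hk]) (by simp [wm2_let, ← hk])
      (by simp [wm2_let, ← hk])
    refine (w1 _ _ hL l1 (hw.trans l2.symm)).trans ?_
    have eb : botIds ⟨k :: (k + 1) :: A.map (wm2_f k), B.map (wm2_f k), C.map (wm2_f k)⟩ =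
        (([] : List ℕ).map (wm2_f k) ++ k :: (k + 1) :: (A ++ B ++ C).map (wm2_f k)).map
          fun x => (x + 1) / 2 := by simp [botIds, Line.all]
    have et : topIds ⟨k :: (k + 1) :: A.map (wm2_f k), B.map (wm2_f k), C.map (wm2_f k)⟩ =
        (([] : List ℕ).map (wm2_f k) ++ k :: (k + 1) ::
          (A ++ 0 :: B ++ (Line.m ⟨A, B, C⟩ + 1) :: C).map (wm2_f k)).map fun x => x / 2 := by
      simp [topIds, m1, f0, fm]
    have := wm2_core h2 h3 k (Line.m ⟨A, B, C⟩) [] (A ++ B ++ C) []
      (A ++ 0 :: B ++ (Line.m ⟨A, B, C⟩ + 1) :: C) (ends (A.length + 2) B.length)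
      (ends A.length B.length) (by simp; omega) (by simp; omega) (eb ▸ l1.dbl_bot)
      (et ▸ l1.dbl_top) (ends_cnt _ _ _) (ends_cnt _ _ _)
      (wm2_e0 (by simp [win]) (by omega) (by simp [win, wout]))
      (wm2_e0 (by simp [win]) (by omega) (by simp [win, wout])).symm
    unfold LD
    rw [eb, et]
    simpa [botIds, topIds, Line.all] using this
  · obtain ⟨m1, l1, l2⟩ := wm2_lab
      (L := ⟨A.map (wm2_f k), k :: (k + 1) :: B.map (wm2_f k), C.map (wm2_f k)⟩)
      (x := 1) (p := A) (q := B ++ C) hL' hw' (by simp [Line.all]) (by simp [Line.all, hk])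
      (fun t => by simp only [wm2_let, wm2_mem, ← hk, List.mem_cons, wm2_ne, false_or])
      (by simp only [wm2_let, ← hk]; rw [if_neg (wm2_nmem k A).1, if_pos (by simp)])
      (by simp only [wm2_let, ← hk]; rw [if_neg (wm2_nmem k A).2, if_pos (by simp)])
    refine (w1 _ _ hL l1 (hw.trans l2.symm)).trans ?_
    have eb : botIds ⟨A.map (wm2_f k), k :: (k + 1) :: B.map (wm2_f k), C.map (wm2_f k)⟩ =
        (A.map (wm2_f k) ++ k :: (k + 1) :: (B ++ C).map (wm2_f k)).map
          fun x => (x + 1) / 2 := by simp [botIds, Line.all]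
    have et : topIds ⟨A.map (wm2_f k), k :: (k + 1) :: B.map (wm2_f k), C.map (wm2_f k)⟩ =
        ((A ++ [0]).map (wm2_f k) ++ k :: (k + 1) ::
          (B ++ (Line.m ⟨A, B, C⟩ + 1) :: C).map (wm2_f k)).map fun x => x / 2 := by
      simp [topIds, m1, f0, fm]
    have := wm2_core h2 h3 k (Line.m ⟨A, B, C⟩) A (B ++ C) (A ++ [0])
      (B ++ (Line.m ⟨A, B, C⟩ + 1) :: C) (ends A.length (B.length + 2))
      (ends A.length B.length) (by simp; omega) (by simp; omega) (eb ▸ l1.dbl_bot)
      (et ▸ l1.dbl_top) (ends_cnt _ _ _) (ends_cnt _ _ _)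
      (by
        rw [List.length_append]
        exact wm2_e1 le_rfl (by simp [win]) (by omega) (by simp [win, wout]))
      (by
        rw [List.length_append]
        exact (wm2_e1 le_rfl (by simp [win]) (by omega) (by simp [win, wout])).symm)
    unfold LD
    rw [eb, et]
    simpa [botIds, topIds, Line.all] using this
  · obtain ⟨m1, l1, l2⟩ := wm2_lab
      (L := ⟨A.map (wm2_f k), B.map (wm2_f k), k :: (k + 1) :: C.map (wm2_f k)⟩)
      (x := 2) (p := A ++ B) (q := C) hL' hw' rfl (by simp [Line.all, hk])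
      (fun t => by simp only [wm2_let, wm2_mem, ← hk])
      (by simp only [wm2_let, ← hk]; rw [if_neg (wm2_nmem k A).1, if_neg (wm2_nmem k B).1])
      (by simp only [wm2_let, ← hk]; rw [if_neg (wm2_nmem k A).2, if_neg (wm2_nmem k B).2])
    refine (w1 _ _ hL l1 (hw.trans l2.symm)).trans ?_
    have eb : botIds ⟨A.map (wm2_f k), B.map (wm2_f k), k :: (k + 1) :: C.map (wm2_f k)⟩ =
        ((A ++ B).map (wm2_f k) ++ k :: (k + 1) :: C.map (wm2_f k)).map
          fun x => (x + 1) / 2 := by simp [botIds, Line.all]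
    have et : topIds ⟨A.map (wm2_f k), B.map (wm2_f k), k :: (k + 1) :: C.map (wm2_f k)⟩ =
        ((A ++ 0 :: B ++ [Line.m ⟨A, B, C⟩ + 1]).map (wm2_f k) ++ k :: (k + 1) ::
          C.map (wm2_f k)).map fun x => x / 2 := by
      simp [topIds, m1, f0, fm]
    have lP : (A ++ 0 :: B ++ [Line.m ⟨A, B, C⟩ + 1]).length = (A ++ B).length + 1 + 1 := by
      simp; omega
    have := wm2_core h2 h3 k (Line.m ⟨A, B, C⟩) (A ++ B) C
      (A ++ 0 :: B ++ [Line.m ⟨A, B, C⟩ + 1]) C (ends A.length B.length)
      (ends A.length B.length) (by simp; omega) (by simp; omega) (eb ▸ l1.dbl_bot)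
      (et ▸ l1.dbl_top) (ends_cnt _ _ _) (ends_cnt _ _ _)
      (by rw [lP]; exact wm2_e2 (by simp) (by simp [win]; omega))
      (by rw [lP]; exact (wm2_e2 (by simp) (by simp [win]; omega)).symm)
    unfold LD
    rw [eb, et]
    simpa [botIds, topIds, Line.all] using this

end Pool.Agent.MP_d5eec5_gt.H77
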